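import Pool.Agent.Q33.TP.Main

/-!
The divergence statement for integer approximation by sums of `θ`-powers is false: it already fails
for `k = 1`, for almost every exponent `θ` in the unit interval.
-/

set_option autoImplicit false

open MeasureTheory

namespace Pool.Agent.Results.MP_33ac70_nt.BlockCounterexample

/-- `(a₁, …, a_k, b)`, a tuple of positive integers, is a solution for `θ`:
`|a₁ ^ θ + ⋯ + a_k ^ θ - b| ≤ ρ(‖a‖) / ‖a‖ ^ k` where `‖a‖ = max a_j`. -/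
def IsSolution (k : ℕ) (ρ : ℕ → ℝ) (θ : ℝ) (p : (Fin k → ℕ) × ℕ) : Prop :=
  (∀ j, 1 ≤ p.1 j) ∧ 1 ≤ p.2 ∧
    |(∑ j, ((p.1 j : ℕ) : ℝ) ^ θ) - (p.2 : ℝ)| ≤
      ρ (Finset.univ.sup p.1) / ((Finset.univ.sup p.1 : ℕ) : ℝ) ^ k

/-- There is `ρ ≥ 0` on the positive integers with `∑ ρ(m) / m = ∞` such that for `k = 1` and almost
every `θ` in `(0, 1)` there are only finitely many solutions. In particular it is not true that for
all `k ≥ 1` and all `ρ ≥ 0` with `∑ ρ(m) / m = ∞` almost every `θ > 0` has infinitely many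
solutions. -/
theorem result :
    (∃ ρ : ℕ → ℝ, (∀ m, 0 ≤ ρ m) ∧ ¬ Summable (fun m : ℕ => ρ m / (m : ℝ)) ∧
      ∀ᵐ θ ∂(volume.restrict (Set.Ioo (0 : ℝ) 1)), {p | IsSolution 1 ρ θ p}.Finite) ∧
    ¬ ∀ k : ℕ, 1 ≤ k → ∀ ρ : ℕ → ℝ, (∀ m, 0 ≤ ρ m) →
        ¬ Summable (fun m : ℕ => ρ m / (m : ℝ)) →
        ∀ᵐ θ ∂(volume.restrict (Set.Ioi (0 : ℝ))), {p | IsSolution k ρ θ p}.Infinite := by
  have h1 : ∀ᵐ θ ∂(volume.restrict (Set.Ioo (0 : ℝ) 1)),
      {p | IsSolution 1 Q33.TP.rho θ p}.Finite := by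
    filter_upwards [Q33.TP.ae_finite] with θ hθ
    refine (hθ.preimage (f := fun p : (Fin 1 → ℕ) × ℕ => (p.1 0, p.2)) ?_).subset ?_
    · intro p _ q _ hpq
      simp only [Prod.mk.injEq] at hpq
      ext j
      · fin_cases j
        exact hpq.1
      · exact hpq.2
    · intro p hp
      obtain ⟨h2, h3, h4⟩ := hp
      have hsup : Finset.univ.sup p.1 = p.1 0 := by
        simp [Finset.univ_unique]
      rw [hsup, Fin.sum_univ_one, pow_one] at h4
      exact ⟨h2 0, h3, h4⟩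
  refine ⟨⟨Q33.TP.rho, Q33.TP.rho_nonneg, Q33.TP.not_summable, h1⟩, fun hall => ?_⟩
  have h2 := hall 1 le_rfl Q33.TP.rho Q33.TP.rho_nonneg Q33.TP.not_summable
  have h3 : ∀ᵐ θ ∂(volume.restrict (Set.Ioo (0 : ℝ) 1)),
      {p | IsSolution 1 Q33.TP.rho θ p}.Infinite :=
    ae_mono (Measure.restrict_mono_set volume fun x hx => hx.1) h2
  have h4 : ∀ᵐ θ ∂(volume.restrict (Set.Ioo (0 : ℝ) 1)), False := by
    filter_upwards [h1, h3] with θ a b
    exact b a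
  rw [ae_iff] at h4
  simp at h4

end Pool.Agent.Results.MP_33ac70_nt.BlockCounterexample
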